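import Pool.Agent.H498.GT.Hd4

/-!
# The Breuil-Mezard conjecture for `GL_2` over a `p`-adic field: all types in terms of the tame types of Hodge type zero

`K / ℚ_p` finite with ring of integers `O`, uniformizer `ϖ` and residue field `k` (`q` elements), `S = Hom(K, E)`.
We fix an embedding `ι` of `k` into an algebraically closed field `F` of characteristic `p`; the embedding `σ ∈ S`
induces the residue embedding `x ↦ ι(x) ^ (p ^ κ σ)`. `t : Fˣ → ℂˣ` is an injective homomorphism (Brauer lift).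

* `h : Wt S 2`, `Dom h`: the regular labelled Hodge-Tate weights, `h = λ + (1, 0)` for the Hodge type `λ`; `h0 S` is
  the Hodge type zero. `s h` is the Weyl character of highest weight `λ` (`IsWeyl`),
  `wdim h = ∏_σ (λ_{σ,1} - λ_{σ,2} + 1)` is the dimension of `W_λ`.
* `D`: the Serre weights, irreducible (`IrrRep`), pairwise non-isomorphic (`IsoRep`) and all of them (`hcomp`), with
  their Brauer characters `D.br w`. `mult h w` is the multiplicity `n_{λ,τ}(w)` of the Serre weight `w` in the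
  reduction of `W_λ ⊗ σ` (`IsMult`), if `θ` is the Brauer character of the reduction of `σ`. `IsMultZ` is the same for
  virtual representations, with integral multiplicities.
* `OfLevel ϖ π₀ p θ δ r`: `θ` is the Brauer character of the reduction (`IsRed`) of an irreducible smooth
  representation `σ` of `GL_2(O)` of dimension `δ` and level `r`: a twist of `σ` by a character of `Oˣ` is trivial on
  the `g ≡ 1 mod ϖ ^ r`, and no twist is trivial on the `g ≡ 1 mod ϖ ^ r'` for an `r' < r`. The representations of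
  level at most one are the twists of the representations of `GL_2(k)` (the tame types); we call the other ones wild.

Let `y ∈ GL_2(k)` be an element of order prime to `p` with the eigenvalues `x_0, x_1 ∈ Fˣ`, and `[x] := t(x)`.

* `IsSpl ι p t δ θ a b`: `θ(y)` is `δ [x_0] ^ (a + b)` if `x_0 = x_1`; it is
  `[x_0] ^ a [x_1] ^ b + [x_1] ^ a [x_0] ^ b` if `x_0 ≠ x_1` are in `k`; it is zero if `x_0` is not in `k`.
  For `δ = q + 1` this is the Brauer character of the principal series representation `PS(a, b)` of `GL_2(k)`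
  (induced from the character `([·] ^ a, [·] ^ b)` of the Borel subgroup).
* `IsEll ι p t r δ θ a`: `θ(y)` is `δ [x_0] ^ a` if `x_0 = x_1`; it is zero if `x_0 ≠ x_1` are in `k`; it is
  `(-1) ^ r ([x_0] ^ a + [x_1] ^ a)` if `x_0` is not in `k`. For `r = 1`, `δ = q - 1` this is the Brauer character of
  the cuspidal representation `C(a)` of `GL_2(k)` of the character `[·] ^ a` of the multiplicative group of the
  quadratic extension of `k` (a virtual representation if this character factors through the norm).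
* `IsRam ι p t δ θ a`: `θ(y)` is `δ [x_0] ^ a` if `x_0 = x_1` and zero otherwise.
* `IsOne ι p t θ a`: `θ(y)` is `([x_0] [x_1]) ^ a`, the Brauer character of the one-dimensional type `[det] ^ a`.
  The tame types are the `PS(a, b)`, `C(a)` and `[det] ^ a` which are representations of `GL_2(k)`.
* `Formulas ι t δ r θ n nps ncu`: the following relations for the number `n` of a type and the numbers `nps a b`,
  `ncu a` of `PS(a, b)`, `C(a)`, for one Hodge type. Let `P(a) := ∑_{0 ≤ c < q - 1} nps c (a + q - 1 - c)`, the sum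
  over the principal series with the central character `[·] ^ a`.
  If `IsSpl δ θ a b` and `δ = (q + 1) q ^ (r - 1)`: `n = nps a b + (1 + q + ... + q ^ (r - 2)) P(a + b)`.
  If `IsEll r δ θ a` and `δ = (q - 1) q ^ (r - 1)`:
  `(-1) ^ r n + ncu a = (1 + (-q) + ... + (-q) ^ (r - 2)) P(a)`.
  If `IsRam δ θ a`: `(q ^ 2 - 1) n = δ P(a)`.
* `Shift κ p q nps ncu n1`: the following relations between the numbers `nps a b h`, `ncu a h`, `n1 a h` of `PS(a, b)`,
  `C(a)`, `[det] ^ a` for the different Hodge types `h`. The weights of `W_λ` are the tuples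
  `i ∈ wts h`, `0 ≤ i_σ < h_{σ,1} - h_{σ,2}`; the torus of `GL_2(k)` acts on the corresponding line by
  `(x, y) ↦ x ^ wa(i) y ^ wb(i)`, `wa(i) = ∑_σ p ^ κ(σ) (h_{σ,2} + i_σ)`,
  `wb(i) = ∑_σ p ^ κ(σ) (h_{σ,1} - 1 - i_σ)`. Then `nps a b h` is the sum of the `nps (a + wa(i)) (b + wb(i))` at Hodge
  type zero, `ncu a h` is the sum of the `ncu (a + wa(i) + q wb(i))` at Hodge type zero (the parameters are taken
  modulo `q - 1` and modulo `q ^ 2 - 1`, `rs`), and `2 n1 a h = nps a a h - ncu ((q + 1) a) h`.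

**Theorem.**
(1) (Reductions of all wild types.) For every wild irreducible smooth representation of `GL_2(O)`, of level `r ≥ 2`
and dimension `δ`, we have `IsSpl δ θ a b` and `δ = (q + 1) q ^ (r - 1)` for some `a, b`, or `IsEll r δ θ a` and
`δ = (q - 1) q ^ (r - 1)` for some `a`, or `IsRam δ θ a` for some `a`.

(2) (Multiplicities, wild types.) For every wild type, every Hodge type and every Serre weight `w` the multiplicity of
`w` is given by the `Formulas` in terms of the multiplicities of `w` for the tame types and the same Hodge type.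
The multiplicity of `w` in `W_λ ⊗ P(a)` is `r_w dim W_λ / q` if the central characters agree (`WtChar`, `omg`)
and zero otherwise, where `r_w` is the multiplicity of `w` in `F[GL_2(k)]`. So the wild part of the multiplicities
depends on `λ` only through its central character and `dim W_λ`.

(3) (Multiplicities, tame types.) For every Serre weight `w` the multiplicities of `w` for the tame types satisfy
`Shift`: those for an arbitrary Hodge type are explicit sums of those for Hodge type zero.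

(4) (Q1.) Let `e τ h`, `eps a b h`, `ecu a h`, `e1 a h` be arbitrary integers (the Hilbert-Samuel multiplicities for
`ρ̄`, for a family `T` of wild types and for the tame types). There are `μ_w ≥ 0` with which the identity of Q1
holds for all Hodge types, all `PS(a, b)`, `C(a)`, `[det] ^ a` and all `τ ∈ T`, if and only if there are `μ_w ≥ 0` with
which it holds for the Hodge type zero and all `PS(a, b)`, `C(a)`, and the numbers `e` satisfy `Shift` and, for all
`τ ∈ T` and all Hodge types, the `Formulas`. So all `e(R^{λ,τ})` are predicted explicitly by those of Hodge type zero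
and tame type.
-/

set_option autoImplicit false

namespace Pool.Agent.Results.MP_39033f_nt.WildTypes

open Pool.Agent.N28.BM Pool.Agent.H498.BT Pool.Agent.H498.EQ Pool.Agent.H498.GT Matrix

open scoped Classical in
/-- **The Breuil-Mezard conjecture for `GL_2`: all types in terms of the tame types of Hodge type zero.** -/
theorem result {k F : Type} [Field k] [Fintype k] [Field F] [IsAlgClosed F] (ι : k →+* F)
    {p f : ℕ} [Fact p.Prime] [CharP F p]
    {S : Type} [Fintype S] [DecidableEq S] (κ : S → ZMod f)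
    (t : Fˣ →* ℂˣ) (ht : Function.Injective t)
    (s : Wt S 2 → P S 2) (hs : IsWeyl (n := 1) s) (D : SerreWeights k F 2 t)
    (hirr : ∀ w, IrrRep (D.rep w)) (hiso : ∀ w w', w ≠ w' → ¬ IsoRep (D.rep w) (D.rep w'))
    (hcomp : ∀ (N : ℕ) (τ : GL (Fin 2) k →* GL (Fin N) F), IrrRep τ → ∃ w, IsoRep (D.rep w) τ)
    {O : Type} [CommRing O] [IsDomain O] [IsDiscreteValuationRing O] {ϖ : O} (hϖ : Irreducible ϖ)
    (π₀ : O →+* k) (hπ₀ : Function.Surjective π₀) :
    (∀ (θ : GL (Fin 2) k → ℂ) (δ r : ℕ), OfLevel ϖ π₀ p θ δ r → 2 ≤ r →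
      ((∃ a b, IsSpl ι p t δ θ a b) ∧ δ = (Fintype.card k + 1) * Fintype.card k ^ (r - 1)) ∨
      ((∃ a, IsEll ι p t r δ θ a) ∧ δ = (Fintype.card k - 1) * Fintype.card k ^ (r - 1)) ∨
      (∃ a, IsRam ι p t δ θ a)) ∧
    ∃ rr : D.W → ℕ, (∀ w, 0 < rr w) ∧
      (∀ g : GL (Fin 2) k, ¬ p ∣ orderOf g →
        ∑ w, (rr w : ℂ) * D.br w g = if g = 1 then (Nat.card (GL (Fin 2) k) : ℂ) else 0) ∧
    ∀ (θps : ℕ → ℕ → GL (Fin 2) k → ℂ), (∀ a b, IsSpl ι p t (Fintype.card k + 1) (θps a b) a b) →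
    ∀ (mps : ℕ → ℕ → Wt S 2 → D.W → ℤ), (∀ a b, IsMultZ ι p t κ s D (θps a b) (mps a b)) →
    ∀ (θcu : ℕ → GL (Fin 2) k → ℂ), (∀ a, IsEll ι p t 1 (Fintype.card k - 1) (θcu a) a) →
    ∀ (mcu : ℕ → Wt S 2 → D.W → ℤ), (∀ a, IsMultZ ι p t κ s D (θcu a) (mcu a)) →
    ∀ (θ1 : ℕ → GL (Fin 2) k → ℂ), (∀ a, IsOne ι p t (θ1 a) a) →
    ∀ (m1 : ℕ → Wt S 2 → D.W → ℤ), (∀ a, IsMultZ ι p t κ s D (θ1 a) (m1 a)) →
      (∀ (θ : GL (Fin 2) k → ℂ) (δ r : ℕ), OfLevel ϖ π₀ p θ δ r → 2 ≤ r →
        ∀ mult : Wt S 2 → D.W → ℕ, IsMult (n := 1) ι (p := p) κ t s D θ mult → ∀ h : Wt S 2, Dom h → ∀ w : D.W,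
          Formulas ι p t δ r θ (mult h w) (fun a b => mps a b h w) (fun a => mcu a h w)) ∧
      (∀ (a : ℕ) (h : Wt S 2), Dom h → ∀ w : D.W, (Fintype.card k : ℝ) *
        ((∑ c ∈ Finset.range (Fintype.card k - 1), mps c (a + (Fintype.card k - 1) - c) h w : ℤ) : ℝ) =
          if WtChar (n := 1) t D w (omg ι p t κ a h) then rr w * wdim (n := 1) h else 0) ∧
      (∀ w : D.W, Shift κ p (Fintype.card k) (fun a b h => mps a b h w) (fun a h => mcu a h w)
        (fun a h => m1 a h w)) ∧
      ∀ (T : Type) (θ : T → GL (Fin 2) k → ℂ) (δ r : T → ℕ), (∀ τ, OfLevel ϖ π₀ p (θ τ) (δ τ) (r τ)) → (∀ τ, 2 ≤ r τ) →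
        ∀ mult : T → Wt S 2 → D.W → ℕ, (∀ τ, IsMult (n := 1) ι (p := p) κ t s D (θ τ) (mult τ)) →
        ∀ (e : T → Wt S 2 → ℤ) (eps : ℕ → ℕ → Wt S 2 → ℤ) (ecu e1 : ℕ → Wt S 2 → ℤ),
          (∃ μ : D.W → ℕ, (∀ a b h, Dom h → eps a b h = ∑ w, mps a b h w * μ w) ∧
            (∀ a h, Dom h → ecu a h = ∑ w, mcu a h w * μ w) ∧
            (∀ a h, Dom h → e1 a h = ∑ w, m1 a h w * μ w) ∧
            ∀ τ h, Dom h → e τ h = ∑ w, (mult τ h w : ℤ) * μ w) ↔
          (∃ μ : D.W → ℕ, (∀ a b, eps a b (h0 S) = ∑ w, mps a b (h0 S) w * μ w) ∧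
            ∀ a, ecu a (h0 S) = ∑ w, mcu a (h0 S) w * μ w) ∧
            Shift κ p (Fintype.card k) eps ecu e1 ∧
            ∀ τ h, Dom h → Formulas ι p t (δ τ) (r τ) (θ τ) (e τ h) (fun a b => eps a b h)
              (fun a => ecu a h) := by
  have hpk : CharP k p := by
    refine ⟨fun x => ?_⟩
    rw [← CharP.cast_eq_zero_iff F p, ← map_natCast ι, map_eq_zero]
  obtain ⟨rr, hr0, hr1⟩ := exists_reg p t ht D.dim D.rep hirr hiso hcomp D.br D.br_eq
  have hr : ∀ g : GL (Fin 2) k, ¬ p ∣ orderOf g →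
      ∑ w, (rr w : ℂ) * D.br w g = if g = 1 then (Nat.card (GL (Fin 2) k) : ℂ) else 0 := by
    intro g hg
    rw [hr1 g hg]
    split_ifs <;> rfl
  refine ⟨fun θ δ r h h2 => cls hϖ π₀ hπ₀ ι p t ht h h2, rr, hr0, hr, ?_⟩
  intro θps hps mps hmps θcu hcu mcu hmcu θ1 hθ1 m1 hm1
  refine ⟨fun θ δ r hθ h2 mult hmult h hh w => mul_all ι κ t ht s D hirr hiso θps hps mps hmps θcu hcu mcu hmcu
      (by omega) hmult h hh w,
    fun a h hh w => P_mult ι κ t ht s hs D hirr hiso rr hr θps hps mps hmps a h hh w,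
    fun w => shift_mult ι κ t ht s hs D hirr hiso θps hps mps hmps θcu hcu mcu hmcu θ1 hθ1 m1 hm1 w, ?_⟩
  intro T θ δ r hθ h2 mult hmult e eps ecu e1
  constructor
  · rintro ⟨μ, g1, g2, g3, g4⟩
    obtain ⟨g5, g6⟩ := (tame_iff ι κ t ht s hs D hirr hiso θps hps mps hmps θcu hcu mcu hmcu θ1 hθ1 m1 hm1
      eps ecu e1 (fun w => (μ w : ℤ))).1 ⟨g1, g2, g3⟩
    exact ⟨⟨μ, g5⟩, g6, (bm_iff ι κ t ht s D hirr hiso hϖ π₀ hπ₀ θps hps mps hmps θcu hcu mcu hmcu θ δ r hθ h2 mult
      hmult e eps ecu (fun w => (μ w : ℤ)) g1 g2).1 g4⟩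
  · rintro ⟨⟨μ, g5⟩, g6, g4⟩
    obtain ⟨g1, g2, g3⟩ := (tame_iff ι κ t ht s hs D hirr hiso θps hps mps hmps θcu hcu mcu hmcu θ1 hθ1 m1 hm1
      eps ecu e1 (fun w => (μ w : ℤ))).2 ⟨g5, g6⟩
    exact ⟨μ, g1, g2, g3, (bm_iff ι κ t ht s D hirr hiso hϖ π₀ hπ₀ θps hps mps hmps θcu hcu mcu hmcu θ δ r hθ h2 mult
      hmult e eps ecu (fun w => (μ w : ℤ)) g1 g2).2 g4⟩

end Pool.Agent.Results.MP_39033f_nt.WildTypes
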